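import Pool.Agent.helper68.SG.SpecK

set_option autoImplicit false

open MeasureTheory Set Metric Filter Topology
open scoped ENNReal NNReal ComplexConjugate

namespace Pool.Agent.SG

lemma K03_dist (ρ : ℝ) (ξ ζ : ℂ) (hξ : ‖ξ‖ = 1) (hζ : ‖ζ‖ = 1) :
    ‖ζ - ρ * ξ‖ ^ 2 = ‖ξ - ρ * ζ‖ ^ 2 := by
  have h1 : ξ.re ^ 2 + ξ.im ^ 2 = 1 := by
    have := Complex.sq_norm ξ
    rw [Complex.normSq_apply] at this
    rw [hξ] at this; nlinarith
  have h2 : ζ.re ^ 2 + ζ.im ^ 2 = 1 := by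
    have := Complex.sq_norm ζ
    rw [Complex.normSq_apply] at this
    rw [hζ] at this; nlinarith
  rw [Complex.sq_norm, Complex.sq_norm, Complex.normSq_apply, Complex.normSq_apply]
  simp only [Complex.sub_re, Complex.sub_im, Complex.mul_re, Complex.mul_im, Complex.ofReal_re,
    Complex.ofReal_im, zero_mul, sub_zero, add_zero]
  linear_combination (ρ ^ 2 - 1) * h1 + (1 - ρ ^ 2) * h2

lemma K03_sym (ρ : ℝ) (ξ ζ : ℂ) (hξ : ‖ξ‖ = 1) (hζ : ‖ζ‖ = 1) :
    poi (ρ * ξ) ζ = poi (ρ * ζ) ξ := by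
  unfold poi
  rw [K03_dist ρ ξ ζ hξ hζ, norm_mul, norm_mul, hξ, hζ]

theorem K03 (h1 : K01_stmt) (h2 : K02_stmt) : K03_stmt := by
  intro R H hR hH ν hν hνc ρ hρ
  obtain ⟨hlam, hlamc, -⟩ := h1
  have hcircm : MeasurableSet circ := isClosed_sphere.measurableSet
  have hHc : ContinuousOn H circ := by
    refine hH.continuousOn.mono ?_
    intro z hz
    rw [circ, mem_sphere_zero_iff_norm] at hz
    rw [mem_ball_zero_iff, hz]; exact hR
  have hHm : Measurable (circ.indicator H) := by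
    classical
    rw [← piecewise_eq_indicator]
    exact hHc.measurable_piecewise continuousOn_const hcircm
  obtain ⟨C, hC⟩ := (isCompact_sphere (0 : ℂ) 1).exists_bound_of_continuousOn hHc
  have hC0 : 0 ≤ C := le_trans (norm_nonneg _) (hC 1 (by simp))
  -- the kernel, jointly measurable
  have hpm : Measurable (fun p : ℂ × ℂ => poi (ρ * p.1) p.2) := by
    unfold poi
    fun_prop
  set G : ℂ × ℂ → ℂ := (circ ×ˢ circ).indicator
    (fun p => (poi (ρ * p.1) p.2 : ℂ) * circ.indicator H p.2) with hG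
  have hGm : Measurable G := by
    refine Measurable.indicator ?_ (hcircm.prod hcircm)
    exact (Complex.measurable_ofReal.comp hpm).mul (hHm.comp measurable_snd)
  have hGb : ∀ p, ‖G p‖ ≤ (1 / (1 - ρ) ^ 2) * C := by
    intro p
    rw [hG]
    by_cases hp : p ∈ circ ×ˢ circ
    · rw [indicator_of_mem hp]
      obtain ⟨hp1, hp2⟩ := hp
      rw [indicator_of_mem hp2, norm_mul]
      have hb := hC p.2 hp2
      rw [circ, mem_sphere_zero_iff_norm] at hp1 hp2
      refine mul_le_mul ?_ hb (norm_nonneg _) (by positivity)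
      rw [Complex.norm_real, Real.norm_eq_abs]
      unfold poi
      have hd : 1 - ρ ≤ ‖p.2 - ρ * p.1‖ := by
        have := norm_sub_norm_le p.2 (ρ * p.1)
        rw [norm_mul, hp1, hp2, Complex.norm_real, Real.norm_eq_abs, abs_of_pos hρ.1] at this
        linarith
      have hnum : 0 ≤ 1 - ‖(ρ : ℂ) * p.1‖ ^ 2 := by
        rw [norm_mul, hp1, Complex.norm_real, Real.norm_eq_abs, abs_of_pos hρ.1]
        nlinarith [hρ.1, hρ.2]
      rw [abs_of_nonneg (div_nonneg hnum (by positivity))]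
      have h1r : 0 < 1 - ρ := by linarith [hρ.2]
      refine div_le_div₀ zero_le_one ?_ (by positivity) ?_
      · nlinarith [sq_nonneg ‖(ρ : ℂ) * p.1‖]
      · exact pow_le_pow_left₀ h1r.le hd 2
    · rw [indicator_of_notMem hp, norm_zero]
      positivity
  have hGi : Integrable G (ν.prod lam) :=
    Integrable.of_bound hGm.aestronglyMeasurable _ (Eventually.of_forall hGb)
  have hνae : ∀ᵐ ξ ∂ν, ξ ∈ circ := by
    rw [ae_iff]; exact hνc
  have hlae : ∀ᵐ ζ ∂lam, ζ ∈ circ := by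
    rw [ae_iff]; exact hlamc
  have hL : ∫ ξ, H (ρ * ξ) ∂ν = ∫ ξ, ∫ ζ, G (ξ, ζ) ∂lam ∂ν := by
    refine integral_congr_ae ?_
    filter_upwards [hνae] with ξ hξ
    have hξ' := hξ
    rw [circ, mem_sphere_zero_iff_norm] at hξ'
    have hz : ‖(ρ : ℂ) * ξ‖ < 1 := by
      rw [norm_mul, hξ', Complex.norm_real, Real.norm_eq_abs, abs_of_pos hρ.1, mul_one]
      exact hρ.2
    rw [← h2 R H hR hH _ hz]
    refine integral_congr_ae ?_
    filter_upwards [hlae] with ζ hζ
    rw [hG, indicator_of_mem (show (ξ, ζ) ∈ circ ×ˢ circ from ⟨hξ, hζ⟩)]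
    rw [indicator_of_mem hζ]
  have hRr : ∫ ζ, H ζ * ((∫ ξ, poi (ρ * ζ) ξ ∂ν : ℝ) : ℂ) ∂lam
      = ∫ ζ, ∫ ξ, G (ξ, ζ) ∂ν ∂lam := by
    refine integral_congr_ae ?_
    filter_upwards [hlae] with ζ hζ
    have hζ' := hζ
    rw [circ, mem_sphere_zero_iff_norm] at hζ'
    rw [← integral_complex_ofReal, ← integral_const_mul]
    refine integral_congr_ae ?_
    filter_upwards [hνae] with ξ hξ
    have hξ' := hξ
    rw [circ, mem_sphere_zero_iff_norm] at hξ'
    rw [hG, indicator_of_mem (show (ξ, ζ) ∈ circ ×ˢ circ from ⟨hξ, hζ⟩)]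
    rw [indicator_of_mem hζ, K03_sym ρ ξ ζ hξ' hζ', mul_comm]
  rw [hL, hRr]
  exact integral_integral_swap hGi

end Pool.Agent.SG
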